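import Pool.Agent.Q237.ArrTheory

/-!
# Finite checks for explicit integer arrangements of planes in `ℝ³`
-/

namespace Pool.Agent.Q237.Arr

open Finset

/-- integer plane `a x + b y + c z = d`, or homogeneous point `(X, Y, Z, W)` -/
abbrev Pl := ℤ × ℤ × ℤ × ℤ

/-- value of the plane at the homogeneous point -/
def ev (p q : Pl) : ℤ := p.1 * q.1 + p.2.1 * q.2.1 + p.2.2.1 * q.2.2.1 - p.2.2.2 * q.2.2.2

/-- positivity test -/
def posB : ℤ → Bool
  | Int.ofNat n => !(Nat.beq n 0)
  | Int.negSucc _ => false

/-- test for being nonzero -/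
def nzB : ℤ → Bool
  | Int.ofNat n => !(Nat.beq n 0)
  | Int.negSucc _ => true

lemma posB_iff (z : ℤ) : posB z = true ↔ 0 < z := by
  cases z with
  | ofNat n =>
    simp only [posB, Bool.not_eq_true', Int.ofNat_eq_natCast]
    rw [← Bool.not_eq_true, Nat.beq_eq]
    omega
  | negSucc n =>
    have h : Int.negSucc n < 0 := Int.negSucc_lt_zero n
    constructor
    · intro h2; exact absurd h2 (by simp [posB])
    · intro h2; omega

lemma nzB_iff (z : ℤ) : nzB z = true ↔ z ≠ 0 := by
  cases z with
  | ofNat n =>
    simp only [nzB, Bool.not_eq_true', Int.ofNat_eq_natCast]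
    rw [← Bool.not_eq_true, Nat.beq_eq]
    omega
  | negSucc n =>
    have h : Int.negSucc n < 0 := Int.negSucc_lt_zero n
    constructor
    · intro _; omega
    · intro _; rfl

/-- the code of the sign vector -/
def maskOf : List Pl → Pl → ℕ
  | [], _ => 0
  | p :: L, q => 2 * maskOf L q + (posB (ev p q)).toNat

/-- the point is off all planes -/
def okPl : List Pl → Pl → Bool
  | [], _ => true
  | p :: L, q => nzB (ev p q) && okPl L q

/-- check a list of points against a list of masks -/
def chkPts (L : List Pl) : List Pl → List ℕ → Bool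
  | [], [] => true
  | q :: qs, m :: ms => posB q.2.2.2 && okPl L q && Nat.beq (maskOf L q) m && chkPts L qs ms
  | _, _ => false

/-- strictly increasing -/
def chkInc : List ℕ → Bool
  | [] => true
  | [_] => true
  | a :: b :: l => Nat.blt a b && chkInc (b :: l)

/-- binary search tree -/
inductive Tr where
  | lf : Tr
  | nd : Tr → ℕ → Tr → Tr

/-- membership -/
def Tr.mem : Tr → ℕ → Bool
  | Tr.lf, _ => false
  | Tr.nd l m r, x => cond (Nat.beq x m) true (cond (Nat.blt x m) (l.mem x) (r.mem x))

/-- inorder list -/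
def Tr.toL : Tr → List ℕ
  | Tr.lf => []
  | Tr.nd l m r => l.toL ++ m :: r.toL

/-- equality of lists -/
def eqL : List ℕ → List ℕ → Bool
  | [], [] => true
  | a :: l, b :: l' => Nat.beq a b && eqL l l'
  | _, _ => false

/-- number of `i < k` with `m xor 2^i` in the tree -/
def cntB (t : Tr) (m : ℕ) : ℕ → ℕ
  | 0 => 0
  | i + 1 => cntB t m i + (t.mem (m ^^^ 2 ^ i)).toNat

/-- total count -/
def cntL (t : Tr) (n : ℕ) : List ℕ → ℕ
  | [] => 0
  | m :: ms => cntB t m n + cntL t n ms

/-- disjointness -/
def disj (t : Tr) : List ℕ → Bool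
  | [] => true
  | m :: ms => !(t.mem m) && disj t ms

lemma eqL_eq : ∀ l l' : List ℕ, eqL l l' = true → l = l'
  | [], [], _ => rfl
  | [], _ :: _, h => by simp [eqL] at h
  | _ :: _, [], h => by simp [eqL] at h
  | a :: l, b :: l', h => by
    simp only [eqL, Bool.and_eq_true, Nat.beq_eq] at h
    rw [h.1, eqL_eq l l' h.2]

lemma chkInc_pairwise : ∀ l : List ℕ, chkInc l = true → l.Pairwise (· < ·)
  | [], _ => List.Pairwise.nil
  | [a], _ => List.pairwise_singleton _ _
  | a :: b :: l, h => by
    simp only [chkInc, Bool.and_eq_true, Nat.blt_eq] at h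
    have ih := chkInc_pairwise (b :: l) h.2
    rw [List.pairwise_cons]
    refine ⟨?_, ih⟩
    intro x hx
    rcases List.mem_cons.mp hx with rfl | hx
    · exact h.1
    · exact h.1.trans ((List.pairwise_cons.mp ih).1 x hx)

lemma Tr.mem_of_mem_toL : ∀ (t : Tr), t.toL.Pairwise (· < ·) → ∀ x ∈ t.toL, t.mem x = true
  | Tr.lf, _, x, hx => by simp [Tr.toL] at hx
  | Tr.nd l m r, h, x, hx => by
    simp only [Tr.toL] at h hx
    rw [List.pairwise_append] at h
    obtain ⟨h1, h2, h3⟩ := h
    rw [List.pairwise_cons] at h2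
    rw [List.mem_append, List.mem_cons] at hx
    rcases hx with hx | rfl | hx
    · have hlt : x < m := h3 x hx m (by simp)
      have h4 : Nat.beq x m = false := by
        rw [← Bool.not_eq_true, Nat.beq_eq]; omega
      have h5 : Nat.blt x m = true := by rw [Nat.blt_eq]; exact hlt
      simp only [Tr.mem, h4, h5, cond_true, cond_false]
      exact Tr.mem_of_mem_toL l h1 x hx
    · have h4 : Nat.beq x x = true := by rw [Nat.beq_eq]
      simp only [Tr.mem, h4, cond_true]
    · have hlt : m < x := h2.1 x hx
      have h4 : Nat.beq x m = false := by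
        rw [← Bool.not_eq_true, Nat.beq_eq]; omega
      have h5 : Nat.blt x m = false := by
        rw [← Bool.not_eq_true, Nat.blt_eq]; omega
      simp only [Tr.mem, h4, h5, cond_false]
      exact Tr.mem_of_mem_toL r h2.2 x hx

lemma disj_iff (t : Tr) : ∀ l : List ℕ, disj t l = true → ∀ x ∈ l, t.mem x = false
  | [], _, x, hx => by simp at hx
  | a :: l, h, x, hx => by
    simp only [disj, Bool.and_eq_true, Bool.not_eq_true'] at h
    rcases List.mem_cons.mp hx with rfl | hx
    · exact h.1
    · exact disj_iff t l h.2 x hx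

/-- normals of the arrangement given by a list -/
noncomputable def nrm (L : List Pl) (i : Fin L.length) : Fin 3 → ℝ :=
  ![((L.get i).1 : ℝ), ((L.get i).2.1 : ℝ), ((L.get i).2.2.1 : ℝ)]

/-- offsets of the arrangement given by a list -/
noncomputable def off (L : List Pl) (i : Fin L.length) : ℝ := ((L.get i).2.2.2 : ℝ)

/-- the point with given homogeneous coordinates -/
noncomputable def pt (q : Pl) : Fin 3 → ℝ :=
  ![(q.1 : ℝ) / q.2.2.2, (q.2.1 : ℝ) / q.2.2.2, (q.2.2.1 : ℝ) / q.2.2.2]

lemma ev_pt (L : List Pl) (i : Fin L.length) (q : Pl) (hq : 0 < q.2.2.2) :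
    nrm L i ⬝ᵥ pt q - off L i = (ev (L.get i) q : ℝ) / q.2.2.2 := by
  have hq' : (q.2.2.2 : ℝ) ≠ 0 := by exact_mod_cast hq.ne'
  unfold nrm pt off ev
  rw [dotProduct, Fin.sum_univ_three]
  simp only [Matrix.cons_val_zero, Matrix.cons_val_one, Matrix.cons_val_two, Matrix.head_cons,
    Matrix.tail_cons]
  push_cast
  field_simp

lemma mask_lt : ∀ (L : List Pl) (q : Pl), maskOf L q < 2 ^ L.length
  | [], q => by simp [maskOf]
  | p :: L, q => by
    have := mask_lt L q
    simp only [maskOf, List.length_cons, pow_succ]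
    have h2 : (posB (ev p q)).toNat ≤ 1 := Bool.toNat_le _
    omega

lemma testBit_mask : ∀ (L : List Pl) (q : Pl) (i : Fin L.length),
    (maskOf L q).testBit i = posB (ev (L.get i) q)
  | [], q, i => i.elim0
  | p :: L, q, ⟨0, h⟩ => by
    have h0 : (p :: L).get ⟨0, h⟩ = p := rfl
    rw [h0]
    show (2 * maskOf L q + (posB (ev p q)).toNat).testBit 0 = _
    rw [Nat.testBit_zero]
    cases posB (ev p q)
    · simp
    · have h2 : (2 * maskOf L q + true.toNat) % 2 = 1 := by
        simp only [Bool.toNat_true]; omega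
      rw [h2]; rfl
  | p :: L, q, ⟨i + 1, h⟩ => by
    have ih := testBit_mask L q ⟨i, Nat.lt_of_succ_lt_succ h⟩
    simp only [maskOf, Nat.testBit_succ, List.get] at ih ⊢
    rw [← ih]
    congr 1
    have h2 : (posB (ev p q)).toNat ≤ 1 := Bool.toNat_le _
    omega

lemma okPl_iff : ∀ (L : List Pl) (q : Pl), okPl L q = true → ∀ i : Fin L.length,
    ev (L.get i) q ≠ 0
  | [], q, _, i => i.elim0
  | p :: L, q, h, ⟨0, hi⟩ => by
    simp only [okPl, Bool.and_eq_true] at h
    exact (nzB_iff _).mp h.1
  | p :: L, q, h, ⟨i + 1, hi⟩ => by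
    simp only [okPl, Bool.and_eq_true] at h
    exact okPl_iff L q h.2 ⟨i, Nat.lt_of_succ_lt_succ hi⟩

lemma mask_mem (L : List Pl) (q : Pl) (hq : posB q.2.2.2 = true) (hok : okPl L q = true) :
    maskOf L q ∈ RF (nrm L) (off L) := by
  rw [mem_RF]
  refine ⟨mask_lt L q, ⟨pt q, ?_⟩⟩
  intro i
  rw [testBit_mask]
  have hq' := (posB_iff _).mp hq
  have hqr : (0 : ℝ) < q.2.2.2 := by exact_mod_cast hq'
  have h1 := ev_pt L i q hq'
  by_cases h : 0 < ev (L.get i) q
  · rw [if_pos ((posB_iff _).mpr h)]
    have : (0 : ℝ) < (ev (L.get i) q : ℝ) / q.2.2.2 := div_pos (by exact_mod_cast h) hqr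
    linarith
  · rw [if_neg (fun h2 => h ((posB_iff _).mp h2))]
    have h3 : ev (L.get i) q < 0 := lt_of_le_of_ne (not_lt.mp h) (okPl_iff L q hok i)
    have : (ev (L.get i) q : ℝ) / q.2.2.2 < 0 := div_neg_of_neg_of_pos (by exact_mod_cast h3) hqr
    linarith

lemma chkPts_mem (L : List Pl) : ∀ (qs : List Pl) (ms : List ℕ), chkPts L qs ms = true →
    ∀ m ∈ ms, m ∈ RF (nrm L) (off L)
  | [], [], _, m, hm => by simp at hm
  | [], _ :: _, h, _, _ => by simp [chkPts] at h
  | _ :: _, [], h, _, _ => by simp [chkPts] at h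
  | q :: qs, m' :: ms, h, m, hm => by
    simp only [chkPts, Bool.and_eq_true, Nat.beq_eq] at h
    rcases List.mem_cons.mp hm with rfl | hm
    · rw [← h.1.2]
      exact mask_mem L q h.1.1.1 h.1.1.2
    · exact chkPts_mem L qs ms h.2 m hm

lemma chkPts_append {L : List Pl} : ∀ {a : List Pl} {c : List ℕ} {b : List Pl} {e : List ℕ},
    chkPts L a c = true → chkPts L b e = true → chkPts L (a ++ b) (c ++ e) = true
  | [], [], _, _, _, h2 => h2
  | [], _ :: _, _, _, h, _ => by simp [chkPts] at h
  | _ :: _, [], _, _, h, _ => by simp [chkPts] at h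
  | q :: a, m :: c, b, e, h, h2 => by
    simp only [chkPts, Bool.and_eq_true] at h
    simp only [List.cons_append, chkPts, Bool.and_eq_true]
    exact ⟨h.1, chkPts_append h.2 h2⟩

lemma cntB_eq (t : Tr) (m : ℕ) (n : ℕ) :
    ∑ i ∈ range n, (t.mem (m ^^^ 2 ^ i)).toNat = cntB t m n := by
  induction n with
  | zero => rfl
  | succ n ih => rw [Finset.sum_range_succ, ih]; rfl

lemma cntL_eq (t : Tr) (n : ℕ) (l : List ℕ) :
    (l.map fun m => cntB t m n).sum = cntL t n l := by
  induction l with
  | nil => rfl
  | cons m l ih => simp [cntL, ih]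

open Set in
/-- The finite checks imply the existence of a set of chambers with small boundary. -/
theorem finite_check (L : List Pl) (pS pT : List Pl) (mS mT : List ℕ) (t : Tr) (B : ℕ)
    (h1 : chkPts L pS mS = true) (h2 : chkPts L pT mT = true)
    (h3 : chkInc mS = true) (h4 : chkInc mT = true) (h5 : eqL t.toL mT = true)
    (h6 : disj t mS = true)
    (h7 : mS.length + mT.length = ∑ k ∈ Finset.range 4, L.length.choose k)
    (h8 : cntL t L.length mS ≤ B) :
    (chambers (nrm L) (off L)).encard = (∑ k ∈ Finset.range 4, L.length.choose k : ℕ) ∧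
    ∃ S ⊆ chambers (nrm L) (off L), S.encard = mS.length ∧
      (edgeBoundary (nrm L) (off L) S).encard ≤ B := by
  classical
  have e5 := eqL_eq _ _ h5
  have p3 := chkInc_pairwise _ h3
  have p4 := chkInc_pairwise _ h4
  have n3 : mS.Nodup := p3.imp fun h => h.ne
  have n4 : mT.Nodup := p4.imp fun h => h.ne
  have hmemT : ∀ x ∈ mT, t.mem x = true := by
    rw [← e5] at p4 ⊢
    exact Tr.mem_of_mem_toL t p4
  have hdisj : ∀ x ∈ mS, x ∉ mT := by
    intro x hx hxT
    have h9 := disj_iff t mS h6 x hx
    rw [hmemT x hxT] at h9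
    exact absurd h9 (by simp)
  have hRF : RF (nrm L) (off L) = (mS ++ mT).toFinset := by
    symm
    apply Finset.eq_of_subset_of_card_le
    · intro x hx
      rw [List.mem_toFinset, List.mem_append] at hx
      rcases hx with hx | hx
      · exact chkPts_mem L pS mS h1 x hx
      · exact chkPts_mem L pT mT h2 x hx
    · rw [List.toFinset_card_of_nodup, List.length_append, h7]
      · exact card_RF_le _ _
      · rw [List.nodup_append]
        exact ⟨n3, n4, fun a ha b hb hab => hdisj a ha (hab ▸ hb)⟩
  have hRz : Rz (nrm L) (off L) = ((mS ++ mT).toFinset : Set ℕ) := by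
    rw [← hRF]
    ext m
    rw [Finset.mem_coe, mem_RF]
  have hinj := cell_injOn (nrm L) (off L)
  constructor
  · rw [chambers_eq, hinj.encard_image, hRz, Set.encard_coe_eq_coe_finsetCard,
      List.toFinset_card_of_nodup, List.length_append, h7]
    rw [List.nodup_append]
    exact ⟨n3, n4, fun a ha b hb hab => hdisj a ha (hab ▸ hb)⟩
  · have hSsub : ((mS.toFinset : Finset ℕ) : Set ℕ) ⊆ Rz (nrm L) (off L) := by
      rw [hRz]
      intro x hx
      rw [Finset.mem_coe, List.mem_toFinset] at hx ⊢
      exact List.mem_append_left _ hx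
    refine ⟨cell (nrm L) (off L) '' (mS.toFinset : Set ℕ), ?_, ?_, ?_⟩
    · rw [chambers_eq]
      exact Set.image_mono hSsub
    · rw [(hinj.mono hSsub).encard_image, Set.encard_coe_eq_coe_finsetCard,
        List.toFinset_card_of_nodup n3]
    · let Fs : Finset (ℕ × ℕ) := (mS.toFinset ×ˢ Finset.range L.length).filter
        fun p => t.mem (p.1 ^^^ 2 ^ p.2) = true
      have hsub : edgeBoundary (nrm L) (off L) (cell (nrm L) (off L) '' (mS.toFinset : Set ℕ)) ⊆
          (fun p : ℕ × ℕ => (cell (nrm L) (off L) p.1, cell (nrm L) (off L) (p.1 ^^^ 2 ^ p.2))) ''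
            (Fs : Set (ℕ × ℕ)) := by
        rintro ⟨C, D⟩ ⟨hC, ⟨hD1, hD2⟩, hadj⟩
        obtain ⟨m, hm, hmC⟩ := hC
        rw [chambers_eq] at hD1
        obtain ⟨m', hm', hmD⟩ := hD1
        have hmC' : C = cell (nrm L) (off L) m := hmC.symm
        have hmD' : D = cell (nrm L) (off L) m' := hmD.symm
        subst hmC'
        subst hmD'
        have hm'T : m' ∈ mT := by
          have h9 : m' ∈ ((mS ++ mT).toFinset : Set ℕ) := by rw [← hRz]; exact hm'
          rw [Finset.mem_coe, List.mem_toFinset, List.mem_append] at h9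
          rcases h9 with h9 | h9
          · exfalso
            apply hD2
            refine ⟨m', ?_, rfl⟩
            rw [Finset.mem_coe, List.mem_toFinset]; exact h9
          · exact h9
        obtain ⟨i, hi1, hi2⟩ := hadj
        have hmR : m ∈ Rz (nrm L) (off L) := hSsub hm
        have hx : m' = m ^^^ 2 ^ (i : ℕ) := by
          apply Nat.eq_of_testBit_eq
          intro j
          rw [Nat.testBit_xor, Nat.testBit_two_pow]
          by_cases hj : j < L.length
          · by_cases hji : (i : ℕ) = j
            · have hne := (separates_iff _ _ hmR hm' i).mp hi1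
              subst hji
              rw [decide_eq_true rfl, Bool.xor_true]
              cases h10 : m.testBit (i : ℕ) <;> cases h11 : m'.testBit (i : ℕ)
              · rw [h10, h11] at hne; exact absurd rfl hne
              · rfl
              · rfl
              · rw [h10, h11] at hne; exact absurd rfl hne
            · have heq : m.testBit j = m'.testBit j := by
                by_contra hne
                have h12 := hi2 ⟨j, hj⟩ ((separates_iff _ _ hmR hm' ⟨j, hj⟩).mpr hne)
                apply hji
                rw [← h12]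
              rw [← heq]
              simp [hji]
          · have hle : 2 ^ L.length ≤ 2 ^ j := Nat.pow_le_pow_right (by norm_num) (by omega)
            have hji : ¬ ((i : ℕ) = j) := by
              have := i.2
              omega
            rw [Nat.testBit_lt_two_pow (hm'.1.trans_le hle),
              Nat.testBit_lt_two_pow (hmR.1.trans_le hle)]
            simp [hji]
        refine ⟨(m, (i : ℕ)), ?_, ?_⟩
        · rw [Finset.mem_coe, Finset.mem_filter, Finset.mem_product, Finset.mem_range]
          refine ⟨⟨hm, i.2⟩, ?_⟩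
          show t.mem (m ^^^ 2 ^ (i : ℕ)) = true
          rw [← hx]
          exact hmemT m' hm'T
        · show (cell (nrm L) (off L) m, cell (nrm L) (off L) (m ^^^ 2 ^ (i : ℕ))) = _
          rw [← hx]
      refine (Set.encard_le_encard hsub).trans ?_
      refine (Set.encard_image_le _ _).trans ?_
      rw [Set.encard_coe_eq_coe_finsetCard]
      have hcard : Fs.card = cntL t L.length mS := by
        rw [Finset.card_filter, Finset.sum_product, List.sum_toFinset _ n3, ← cntL_eq]
        congr 1
        apply List.map_congr_left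
        intro m _
        rw [← cntB_eq]
        apply Finset.sum_congr rfl
        intro i _
        cases t.mem (m ^^^ 2 ^ i) <;> simp
      rw [hcard]
      exact_mod_cast h8

end Pool.Agent.Q237.Arr
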