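import Pool.Agent.Q237.ArrData

/-!
# Verification of the edge boundary and of general position
-/

namespace Pool.Agent.Q237.Arr

theorem incS : chkInc mSS = true := by decide +kernel

theorem incT : chkInc mTT = true := by decide +kernel

theorem eqT : eqL trT.toL mTT = true := by decide +kernel

theorem disjST : disj trT mSS = true := by decide +kernel

theorem lenS : mSS.length = 1794 := by decide +kernel

theorem lenT : mTT.length = 1889 := by decide +kernel

theorem lenP : planes.length = 28 := by decide +kernel

theorem cntST : cntL trT 28 mSS ≤ 253 := by decide +kernel

end Pool.Agent.Q237.Arr
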