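import Pool.Agent.Q237.ArrData

/-!
# Verification of general position
-/

namespace Pool.Agent.Q237.Arr

theorem gDP : gD planes = true := by decide +kernel

end Pool.Agent.Q237.Arr
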