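import Pool.Agent.Q237.ArrData

/-!
# Verification of the witness points
-/

namespace Pool.Agent.Q237.Arr

theorem h_pS0 : chkPts planes pS0 mS0 = true := by decide +kernel

theorem h_pS1 : chkPts planes pS1 mS1 = true := by decide +kernel

theorem h_pS2 : chkPts planes pS2 mS2 = true := by decide +kernel

theorem h_pS3 : chkPts planes pS3 mS3 = true := by decide +kernel

theorem h_pS4 : chkPts planes pS4 mS4 = true := by decide +kernel

theorem h_pS5 : chkPts planes pS5 mS5 = true := by decide +kernel

theorem h_pS6 : chkPts planes pS6 mS6 = true := by decide +kernel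

theorem h_pS7 : chkPts planes pS7 mS7 = true := by decide +kernel

theorem h_pS8 : chkPts planes pS8 mS8 = true := by decide +kernel

theorem h_pS9 : chkPts planes pS9 mS9 = true := by decide +kernel

theorem h_pS10 : chkPts planes pS10 mS10 = true := by decide +kernel

theorem h_pS11 : chkPts planes pS11 mS11 = true := by decide +kernel

theorem h_pS12 : chkPts planes pS12 mS12 = true := by decide +kernel

theorem h_pS13 : chkPts planes pS13 mS13 = true := by decide +kernel

theorem h_pS14 : chkPts planes pS14 mS14 = true := by decide +kernel

theorem h_pS15 : chkPts planes pS15 mS15 = true := by decide +kernel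

theorem h_pS16 : chkPts planes pS16 mS16 = true := by decide +kernel

theorem h_pS17 : chkPts planes pS17 mS17 = true := by decide +kernel

theorem h_pS18 : chkPts planes pS18 mS18 = true := by decide +kernel

theorem h_pS19 : chkPts planes pS19 mS19 = true := by decide +kernel

theorem h_pS20 : chkPts planes pS20 mS20 = true := by decide +kernel

theorem h_pS21 : chkPts planes pS21 mS21 = true := by decide +kernel

theorem h_pS22 : chkPts planes pS22 mS22 = true := by decide +kernel

theorem h_pS23 : chkPts planes pS23 mS23 = true := by decide +kernel

theorem h_pS24 : chkPts planes pS24 mS24 = true := by decide +kernel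

theorem h_pS25 : chkPts planes pS25 mS25 = true := by decide +kernel

theorem h_pS26 : chkPts planes pS26 mS26 = true := by decide +kernel

theorem h_pS27 : chkPts planes pS27 mS27 = true := by decide +kernel

theorem h_pS28 : chkPts planes pS28 mS28 = true := by decide +kernel

theorem h_pS29 : chkPts planes pS29 mS29 = true := by decide +kernel

theorem chk_S : chkPts planes pSS mSS = true :=
chkPts_append h_pS0 (chkPts_append h_pS1 (chkPts_append h_pS2 (chkPts_append h_pS3 (chkPts_append
  h_pS4 (chkPts_append h_pS5 (chkPts_append h_pS6 (chkPts_append h_pS7 (chkPts_append h_pS8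
  (chkPts_append h_pS9 (chkPts_append h_pS10 (chkPts_append h_pS11 (chkPts_append h_pS12
  (chkPts_append h_pS13 (chkPts_append h_pS14 (chkPts_append h_pS15 (chkPts_append h_pS16
  (chkPts_append h_pS17 (chkPts_append h_pS18 (chkPts_append h_pS19 (chkPts_append h_pS20
  (chkPts_append h_pS21 (chkPts_append h_pS22 (chkPts_append h_pS23 (chkPts_append h_pS24
  (chkPts_append h_pS25 (chkPts_append h_pS26 (chkPts_append h_pS27 (chkPts_append h_pS28
  (h_pS29)))))))))))))))))))))))))))))

end Pool.Agent.Q237.Arr
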