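import Pool.Agent.Q237.ArrData

/-!
# Verification of the witness points
-/

namespace Pool.Agent.Q237.Arr

theorem h_pT0 : chkPts planes pT0 mT0 = true := by decide +kernel

theorem h_pT1 : chkPts planes pT1 mT1 = true := by decide +kernel

theorem h_pT2 : chkPts planes pT2 mT2 = true := by decide +kernel

theorem h_pT3 : chkPts planes pT3 mT3 = true := by decide +kernel

theorem h_pT4 : chkPts planes pT4 mT4 = true := by decide +kernel

theorem h_pT5 : chkPts planes pT5 mT5 = true := by decide +kernel

theorem h_pT6 : chkPts planes pT6 mT6 = true := by decide +kernel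

theorem h_pT7 : chkPts planes pT7 mT7 = true := by decide +kernel

theorem h_pT8 : chkPts planes pT8 mT8 = true := by decide +kernel

theorem h_pT9 : chkPts planes pT9 mT9 = true := by decide +kernel

theorem h_pT10 : chkPts planes pT10 mT10 = true := by decide +kernel

theorem h_pT11 : chkPts planes pT11 mT11 = true := by decide +kernel

theorem h_pT12 : chkPts planes pT12 mT12 = true := by decide +kernel

theorem h_pT13 : chkPts planes pT13 mT13 = true := by decide +kernel

theorem h_pT14 : chkPts planes pT14 mT14 = true := by decide +kernel

theorem h_pT15 : chkPts planes pT15 mT15 = true := by decide +kernel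

theorem h_pT16 : chkPts planes pT16 mT16 = true := by decide +kernel

theorem h_pT17 : chkPts planes pT17 mT17 = true := by decide +kernel

theorem h_pT18 : chkPts planes pT18 mT18 = true := by decide +kernel

theorem h_pT19 : chkPts planes pT19 mT19 = true := by decide +kernel

theorem h_pT20 : chkPts planes pT20 mT20 = true := by decide +kernel

theorem h_pT21 : chkPts planes pT21 mT21 = true := by decide +kernel

theorem h_pT22 : chkPts planes pT22 mT22 = true := by decide +kernel

theorem h_pT23 : chkPts planes pT23 mT23 = true := by decide +kernel

theorem h_pT24 : chkPts planes pT24 mT24 = true := by decide +kernel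

theorem h_pT25 : chkPts planes pT25 mT25 = true := by decide +kernel

theorem h_pT26 : chkPts planes pT26 mT26 = true := by decide +kernel

theorem h_pT27 : chkPts planes pT27 mT27 = true := by decide +kernel

theorem h_pT28 : chkPts planes pT28 mT28 = true := by decide +kernel

theorem h_pT29 : chkPts planes pT29 mT29 = true := by decide +kernel

theorem h_pT30 : chkPts planes pT30 mT30 = true := by decide +kernel

theorem h_pT31 : chkPts planes pT31 mT31 = true := by decide +kernel

theorem chk_T : chkPts planes pTT mTT = true :=
chkPts_append h_pT0 (chkPts_append h_pT1 (chkPts_append h_pT2 (chkPts_append h_pT3 (chkPts_append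
  h_pT4 (chkPts_append h_pT5 (chkPts_append h_pT6 (chkPts_append h_pT7 (chkPts_append h_pT8
  (chkPts_append h_pT9 (chkPts_append h_pT10 (chkPts_append h_pT11 (chkPts_append h_pT12
  (chkPts_append h_pT13 (chkPts_append h_pT14 (chkPts_append h_pT15 (chkPts_append h_pT16
  (chkPts_append h_pT17 (chkPts_append h_pT18 (chkPts_append h_pT19 (chkPts_append h_pT20
  (chkPts_append h_pT21 (chkPts_append h_pT22 (chkPts_append h_pT23 (chkPts_append h_pT24
  (chkPts_append h_pT25 (chkPts_append h_pT26 (chkPts_append h_pT27 (chkPts_append h_pT28
  (chkPts_append h_pT29 (chkPts_append h_pT30 (h_pT31)))))))))))))))))))))))))))))))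

end Pool.Agent.Q237.Arr
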