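import Pool.Agent.Q237.ArrCheck

/-!
# General position of explicit integer arrangements of planes in `ℝ³`
-/

namespace Pool.Agent.Q237.Arr

/-- determinant of three normals -/
def det3 (p q r : Pl) : ℤ :=
  p.1 * (q.2.1 * r.2.2.1 - q.2.2.1 * r.2.1) - p.2.1 * (q.1 * r.2.2.1 - q.2.2.1 * r.1) +
    p.2.2.1 * (q.1 * r.2.1 - q.2.1 * r.1)

/-- determinant of four planes -/
def det4 (p q r s : Pl) : ℤ :=
  p.2.2.2 * det3 q r s - q.2.2.2 * det3 p r s + r.2.2.2 * det3 p q s - s.2.2.2 * det3 p q r

/-- check with three fixed planes -/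
def gA (p q r : Pl) : List Pl → Bool
  | [] => true
  | s :: l => nzB (det4 p q r s) && gA p q r l

/-- check with two fixed planes -/
def gB (p q : Pl) : List Pl → Bool
  | [] => true
  | r :: l => nzB (det3 p q r) && gA p q r l && gB p q l

/-- check with one fixed plane -/
def gC (p : Pl) : List Pl → Bool
  | [] => true
  | q :: l => gB p q l && gC p l

/-- general position check -/
def gD : List Pl → Bool
  | [] => true
  | p :: l => gC p l && gD l

lemma gA_iff (p q r : Pl) : ∀ l, gA p q r l = true → ∀ s, [s].Sublist l → det4 p q r s ≠ 0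
  | [], _, s, h => by simp at h
  | t :: l, h, s, hs => by
    simp only [gA, Bool.and_eq_true] at h
    cases hs with
    | cons _ h2 => exact gA_iff p q r l h.2 s h2
    | cons_cons _ h2 => exact (nzB_iff _).mp h.1

lemma gB_iff (p q : Pl) : ∀ l, gB p q l = true → (∀ r, [r].Sublist l → det3 p q r ≠ 0) ∧
    (∀ r s, [r, s].Sublist l → det4 p q r s ≠ 0)
  | [], _ => ⟨fun r h => by simp at h, fun r s h => by simp at h⟩
  | t :: l, h => by
    simp only [gB, Bool.and_eq_true] at h
    obtain ⟨ih1, ih2⟩ := gB_iff p q l h.2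
    refine ⟨fun r hr => ?_, fun r s hrs => ?_⟩
    · cases hr with
      | cons _ h2 => exact ih1 r h2
      | cons_cons _ h2 => exact (nzB_iff _).mp h.1.1
    · cases hrs with
      | cons _ h2 => exact ih2 r s h2
      | cons_cons _ h2 => exact gA_iff p q t l h.1.2 s h2

lemma gC_iff (p : Pl) : ∀ l, gC p l = true → (∀ q r, [q, r].Sublist l → det3 p q r ≠ 0) ∧
    (∀ q r s, [q, r, s].Sublist l → det4 p q r s ≠ 0)
  | [], _ => ⟨fun q r h => by simp at h, fun q r s h => by simp at h⟩
  | t :: l, h => by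
    simp only [gC, Bool.and_eq_true] at h
    obtain ⟨ih1, ih2⟩ := gC_iff p l h.2
    have hb := gB_iff p t l h.1
    refine ⟨fun q r hr => ?_, fun q r s hrs => ?_⟩
    · cases hr with
      | cons _ h2 => exact ih1 q r h2
      | cons_cons _ h2 => exact hb.1 r h2
    · cases hrs with
      | cons _ h2 => exact ih2 q r s h2
      | cons_cons _ h2 => exact hb.2 r s h2

lemma gD_iff : ∀ l, gD l = true → (∀ p q r, [p, q, r].Sublist l → det3 p q r ≠ 0) ∧
    (∀ p q r s, [p, q, r, s].Sublist l → det4 p q r s ≠ 0)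
  | [], _ => ⟨fun p q r h => by simp at h, fun p q r s h => by simp at h⟩
  | t :: l, h => by
    simp only [gD, Bool.and_eq_true] at h
    obtain ⟨ih1, ih2⟩ := gD_iff l h.2
    have hb := gC_iff t l h.1
    refine ⟨fun p q r hr => ?_, fun p q r s hrs => ?_⟩
    · cases hr with
      | cons _ h2 => exact ih1 p q r h2
      | cons_cons _ h2 => exact hb.1 q r h2
    · cases hrs with
      | cons _ h2 => exact ih2 p q r s h2
      | cons_cons _ h2 => exact hb.2 q r s h2

lemma sublist3 (L : List Pl) (e : Fin 3 ↪o Fin L.length) :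
    [L.get (e 0), L.get (e 1), L.get (e 2)].Sublist L := by
  rw [List.sublist_iff_exists_fin_orderEmbedding_get_eq]
  refine ⟨e, ?_⟩
  intro i
  fin_cases i <;> rfl

lemma sublist4 (L : List Pl) (e : Fin 4 ↪o Fin L.length) :
    [L.get (e 0), L.get (e 1), L.get (e 2), L.get (e 3)].Sublist L := by
  rw [List.sublist_iff_exists_fin_orderEmbedding_get_eq]
  refine ⟨e, ?_⟩
  intro i
  fin_cases i <;> rfl

/-- the matrix of three normals -/
noncomputable def M3 (L : List Pl) (e : Fin 3 ↪o Fin L.length) : Matrix (Fin 3) (Fin 3) ℝ :=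
  Matrix.of fun k => nrm L (e k)

lemma M3_det (L : List Pl) (e : Fin 3 ↪o Fin L.length) :
    (M3 L e).det = (det3 (L.get (e 0)) (L.get (e 1)) (L.get (e 2)) : ℝ) := by
  rw [Matrix.det_fin_three]
  simp only [M3, Matrix.of_apply, nrm, det3, Matrix.cons_val_zero, Matrix.cons_val_one,
    Matrix.cons_val_two, Matrix.head_cons, Matrix.tail_cons]
  push_cast
  ring

open Module in
theorem genPos_of_check (L : List Pl) (hL : 3 ≤ L.length) (h : gD L = true) :
    GenPos (nrm L) (off L) := by
  classical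
  obtain ⟨h3, h4⟩ := gD_iff L h
  have hsurj : ∀ s : Finset (Fin L.length), s.card ≤ 3 → ∀ y : s → ℝ, ∃ x : Fin 3 → ℝ,
      ∀ i : s, nrm L i ⬝ᵥ x = y i := by
    intro s hs y
    obtain ⟨t, hst, ht⟩ := Finset.exists_superset_card_eq hs (by rw [Fintype.card_fin]; exact hL)
    let e : Fin 3 ↪o Fin L.length := t.orderEmbOfFin ht
    have hdet : (M3 L e).det ≠ 0 := by
      rw [M3_det]
      exact_mod_cast h3 _ _ _ (sublist3 L e)
    let Y : Fin 3 → ℝ := fun k => if hk : e k ∈ s then y ⟨e k, hk⟩ else 0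
    refine ⟨(M3 L e)⁻¹.mulVec Y, ?_⟩
    intro i
    have hit : (i : Fin L.length) ∈ Set.range e := by
      rw [Finset.range_orderEmbOfFin]
      exact hst i.2
    obtain ⟨k, hk⟩ := hit
    have hmul : (M3 L e).mulVec ((M3 L e)⁻¹.mulVec Y) = Y := by
      rw [Matrix.mulVec_mulVec, Matrix.mul_nonsing_inv _ (isUnit_iff_ne_zero.mpr hdet),
        Matrix.one_mulVec]
    have h5 := congrFun hmul k
    have h6 : (M3 L e).mulVec ((M3 L e)⁻¹.mulVec Y) k = nrm L (e k) ⬝ᵥ (M3 L e)⁻¹.mulVec Y := rfl
    rw [h6, hk] at h5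
    rw [h5]
    have hks : e k ∈ s := by rw [hk]; exact i.2
    show (if hk : e k ∈ s then y ⟨e k, hk⟩ else 0) = y i
    rw [dif_pos hks]
    congr 1
    exact Subtype.ext hk
  refine ⟨?_, ?_⟩
  · intro s hs
    let Ls : (Fin 3 → ℝ) →ₗ[ℝ] (s → ℝ) := LinearMap.pi fun i =>
      { toFun := fun x => nrm L i ⬝ᵥ x
        map_add' := fun x y => dotProduct_add _ _ _
        map_smul' := fun c x => by rw [dotProduct_smul]; rfl }
    have hLs : ∀ x i, Ls x i = nrm L i ⬝ᵥ x := fun x i => rfl
    obtain ⟨x0, hx0⟩ := hsurj s hs (fun i => off L i)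
    have hrange : LinearMap.range Ls = ⊤ := by
      rw [LinearMap.range_eq_top]
      intro y
      obtain ⟨x, hx⟩ := hsurj s hs y
      exact ⟨x, funext fun i => hx i⟩
    refine ⟨AffineSubspace.mk' x0 (LinearMap.ker Ls), ?_, ?_, ?_⟩
    · exact AffineSubspace.mk'_nonempty _ _
    · ext x
      rw [SetLike.mem_coe, AffineSubspace.mem_mk', LinearMap.mem_ker, vsub_eq_sub, map_sub,
        sub_eq_zero, Set.mem_iInter₂]
      constructor
      · intro hx i hi
        have h5 := congrFun hx ⟨i, hi⟩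
        rw [hLs, hLs] at h5
        show nrm L i ⬝ᵥ x = off L i
        rw [← hx0 ⟨i, hi⟩]
        exact h5
      · intro hx
        funext i
        rw [hLs, hLs, hx0 i]
        exact hx i i.2
    · rw [AffineSubspace.direction_mk']
      have h5 := LinearMap.finrank_range_add_finrank_ker Ls
      rw [hrange, finrank_top, Module.finrank_fin_fun, Module.finrank_fintype_fun_eq_card,
        Fintype.card_coe] at h5
      omega
  · intro s hs
    rw [Set.eq_empty_iff_forall_notMem]
    intro x hx
    rw [Set.mem_iInter₂] at hx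
    let e : Fin 4 ↪o Fin L.length := s.orderEmbOfFin hs
    have hmem : ∀ k, nrm L (e k) ⬝ᵥ x = off L (e k) := fun k =>
      hx (e k) (Finset.orderEmbOfFin_mem s hs k)
    apply h4 _ _ _ _ (sublist4 L e)
    have e0 := hmem 0
    have e1 := hmem 1
    have e2 := hmem 2
    have e3 := hmem 3
    unfold nrm off at e0 e1 e2 e3
    rw [dotProduct, Fin.sum_univ_three] at e0 e1 e2 e3
    simp only [Matrix.cons_val_zero, Matrix.cons_val_one, Matrix.cons_val_two,
      Matrix.head_cons, Matrix.tail_cons] at e0 e1 e2 e3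
    have key : (det4 (L.get (e 0)) (L.get (e 1)) (L.get (e 2)) (L.get (e 3)) : ℝ) = 0 := by
      simp only [det4, det3]
      push_cast
      generalize L.get (e 0) = p at *
      generalize L.get (e 1) = q at *
      generalize L.get (e 2) = r at *
      generalize L.get (e 3) = s at *
      rw [← e0, ← e1, ← e2, ← e3]
      ring
    exact_mod_cast key

end Pool.Agent.Q237.Arr
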