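import Mathlib

/-!
# Chambers of arrangements of hyperplanes: sign vectors, counting, and finite checks
-/

namespace Pool.Agent.Q237.Arr

open Set Finset

variable {n d : ℕ}

/-- The affine hyperplane `{x | a ⬝ x = b}` of `ℝ^d`. -/
def hyp (a : Fin d → ℝ) (b : ℝ) : Set (Fin d → ℝ) := {x | a ⬝ᵥ x = b}

/-- General position: for every `m ≤ d` any `m` of the hyperplanes meet in an affine subspace of
dimension `d - m`, and any `d + 1` of them have empty intersection. -/
def GenPos (a : Fin n → Fin d → ℝ) (b : Fin n → ℝ) : Prop :=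
  (∀ s : Finset (Fin n), s.card ≤ d → ∃ F : AffineSubspace ℝ (Fin d → ℝ),
    (F : Set (Fin d → ℝ)).Nonempty ∧ (F : Set (Fin d → ℝ)) = ⋂ i ∈ s, hyp (a i) (b i) ∧
      Module.finrank ℝ F.direction + s.card = d) ∧
  (∀ s : Finset (Fin n), s.card = d + 1 → ⋂ i ∈ s, hyp (a i) (b i) = ∅)

/-- The complement of the union of the hyperplanes. -/
def cpl (a : Fin n → Fin d → ℝ) (b : Fin n → ℝ) : Set (Fin d → ℝ) := (⋃ i, hyp (a i) (b i))ᶜ

/-- The chambers: the connected components of the complement. -/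
def chambers (a : Fin n → Fin d → ℝ) (b : Fin n → ℝ) : Set (Set (Fin d → ℝ)) :=
  {C | ∃ x ∈ cpl a b, C = connectedComponentIn (cpl a b) x}

/-- The hyperplane `{x | a ⬝ x = b}` separates `C` and `D`: they lie in different open
half-spaces. -/
def Separates (a : Fin d → ℝ) (b : ℝ) (C D : Set (Fin d → ℝ)) : Prop :=
  ((∀ x ∈ C, a ⬝ᵥ x < b) ∧ (∀ x ∈ D, b < a ⬝ᵥ x)) ∨
    ((∀ x ∈ C, b < a ⬝ᵥ x) ∧ (∀ x ∈ D, a ⬝ᵥ x < b))

/-- Adjacency in the chamber graph: exactly one hyperplane separates the two chambers. -/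
def Adjacent (a : Fin n → Fin d → ℝ) (b : Fin n → ℝ) (C D : Set (Fin d → ℝ)) : Prop :=
  ∃! i, Separates (a i) (b i) C D

/-- The edge boundary of a set `S` of chambers: the edges of the chamber graph with exactly one
endpoint in `S`, written as pairs (endpoint in `S`, endpoint outside `S`). -/
def edgeBoundary (a : Fin n → Fin d → ℝ) (b : Fin n → ℝ) (S : Set (Set (Fin d → ℝ))) :
    Set (Set (Fin d → ℝ) × Set (Fin d → ℝ)) :=
  {e | e.1 ∈ S ∧ e.2 ∈ chambers a b \ S ∧ Adjacent a b e.1 e.2}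

/-- The open cell with sign vector coded by the binary digits of `m`. -/
def cell (a : Fin n → Fin d → ℝ) (b : Fin n → ℝ) (m : ℕ) : Set (Fin d → ℝ) :=
  {x | ∀ i : Fin n, if m.testBit i then b i < a i ⬝ᵥ x else a i ⬝ᵥ x < b i}

/-- The realised sign vectors. -/
def Rz (a : Fin n → Fin d → ℝ) (b : Fin n → ℝ) : Set ℕ := {m | m < 2 ^ n ∧ (cell a b m).Nonempty}

lemma cell_subset (a : Fin n → Fin d → ℝ) (b : Fin n → ℝ) (m : ℕ) : cell a b m ⊆ cpl a b := by
  intro x hx hmem
  rw [mem_iUnion] at hmem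
  obtain ⟨i, hi⟩ := hmem
  have h1 := hx i
  have h2 : a i ⬝ᵥ x = b i := hi
  split_ifs at h1 <;> linarith

lemma exists_cell (a : Fin n → Fin d → ℝ) (b : Fin n → ℝ) {x : Fin d → ℝ} (hx : x ∈ cpl a b) :
    ∃ m, m < 2 ^ n ∧ x ∈ cell a b m := by
  classical
  refine ⟨Nat.ofBits (fun i : Fin n => decide (b i < a i ⬝ᵥ x)), Nat.ofBits_lt_two_pow _, ?_⟩
  intro i
  rw [Nat.testBit_ofBits_lt _ _ i.2]
  by_cases h : b i < a i ⬝ᵥ x
  · rw [if_pos (by simpa using h)]
    exact h
  · have hne : a i ⬝ᵥ x ≠ b i := by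
      intro h2
      exact hx (mem_iUnion.mpr ⟨i, h2⟩)
    have : a i ⬝ᵥ x < b i := lt_of_le_of_ne (not_lt.mp h) hne
    rw [if_neg (by simpa using h)]
    exact this

lemma cell_convex (a : Fin n → Fin d → ℝ) (b : Fin n → ℝ) (m : ℕ) : Convex ℝ (cell a b m) := by
  have : cell a b m = ⋂ i : Fin n, {x | if m.testBit i then b i < a i ⬝ᵥ x else a i ⬝ᵥ x < b i} := by
    ext x; simp [cell]
  rw [this]
  apply convex_iInter
  intro i
  by_cases h : m.testBit i
  · simp only [h, if_true]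
    exact convex_halfSpace_gt (f := fun x => a i ⬝ᵥ x)
      ⟨fun x y => dotProduct_add _ _ _, fun c x => by rw [dotProduct_smul]⟩ (b i)
  · simp only [h]
    exact convex_halfSpace_lt (f := fun x => a i ⬝ᵥ x)
      ⟨fun x y => dotProduct_add _ _ _, fun c x => by rw [dotProduct_smul]⟩ (b i)

lemma comp_eq (a : Fin n → Fin d → ℝ) (b : Fin n → ℝ) {x : Fin d → ℝ} {m : ℕ}
    (hx : x ∈ cell a b m) : connectedComponentIn (cpl a b) x = cell a b m := by
  apply Set.Subset.antisymm
  · intro y hy i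
    have hxi := hx i
    have hsub : connectedComponentIn (cpl a b) x ⊆ cpl a b := connectedComponentIn_subset _ _
    have hxm : x ∈ connectedComponentIn (cpl a b) x :=
      mem_connectedComponentIn (cell_subset a b m hx)
    have hpre : IsPreconnected (connectedComponentIn (cpl a b) x) :=
      isPreconnected_connectedComponentIn
    have hcont : ContinuousOn (fun z : Fin d → ℝ => a i ⬝ᵥ z)
        (connectedComponentIn (cpl a b) x) := by
      apply Continuous.continuousOn
      unfold dotProduct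
      fun_prop
    have hno : ∀ z ∈ connectedComponentIn (cpl a b) x, a i ⬝ᵥ z ≠ b i := by
      intro z hz h2
      exact hsub hz (mem_iUnion.mpr ⟨i, h2⟩)
    by_cases h : m.testBit i
    · simp only [h, if_true] at hxi ⊢
      by_contra hcon
      obtain ⟨z, hz, hz2⟩ := hpre.intermediate_value hy hxm hcont ⟨not_lt.mp hcon, hxi.le⟩
      exact hno z hz hz2
    · simp only [h] at hxi ⊢
      by_contra hcon
      obtain ⟨z, hz, hz2⟩ := hpre.intermediate_value hxm hy hcont ⟨le_of_lt hxi, not_lt.mp hcon⟩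
      exact hno z hz hz2
  · exact (cell_convex a b m).isPreconnected.subset_connectedComponentIn hx (cell_subset a b m)

lemma chambers_eq (a : Fin n → Fin d → ℝ) (b : Fin n → ℝ) :
    chambers a b = cell a b '' Rz a b := by
  ext C
  constructor
  · rintro ⟨x, hx, rfl⟩
    obtain ⟨m, hm, hxm⟩ := exists_cell a b hx
    exact ⟨m, ⟨hm, ⟨x, hxm⟩⟩, (comp_eq a b hxm).symm⟩
  · rintro ⟨m, ⟨hm, ⟨x, hx⟩⟩, rfl⟩
    exact ⟨x, cell_subset a b m hx, (comp_eq a b hx).symm⟩

lemma testBit_eq_of_mem (a : Fin n → Fin d → ℝ) (b : Fin n → ℝ) {x : Fin d → ℝ} {m m' : ℕ}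
    (h : x ∈ cell a b m) (h' : x ∈ cell a b m') (i : Fin n) : m.testBit i = m'.testBit i := by
  have h1 := h i
  have h2 := h' i
  cases h3 : m.testBit i <;> cases h4 : m'.testBit i <;> simp only [h3, h4] at h1 h2 ⊢
  · simp at h1 h2; linarith
  · simp at h1 h2; linarith

lemma cell_injOn (a : Fin n → Fin d → ℝ) (b : Fin n → ℝ) : InjOn (cell a b) (Rz a b) := by
  rintro m ⟨hm, ⟨x, hx⟩⟩ m' ⟨hm', _⟩ h
  have hx' : x ∈ cell a b m' := h ▸ hx
  apply Nat.eq_of_testBit_eq
  intro i
  by_cases hi : i < n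
  · exact testBit_eq_of_mem a b hx hx' ⟨i, hi⟩
  · have hle : 2 ^ n ≤ 2 ^ i := Nat.pow_le_pow_right (by norm_num) (by omega)
    rw [Nat.testBit_lt_two_pow (hm.trans_le hle), Nat.testBit_lt_two_pow (hm'.trans_le hle)]

lemma separates_iff (a : Fin n → Fin d → ℝ) (b : Fin n → ℝ) {m m' : ℕ}
    (hm : m ∈ Rz a b) (hm' : m' ∈ Rz a b) (i : Fin n) :
    Separates (a i) (b i) (cell a b m) (cell a b m') ↔ m.testBit i ≠ m'.testBit i := by
  obtain ⟨_, ⟨x, hx⟩⟩ := hm
  obtain ⟨_, ⟨x', hx'⟩⟩ := hm'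
  constructor
  · rintro (⟨h1, h2⟩ | ⟨h1, h2⟩)
    · have e1 := h1 x hx
      have e2 := h2 x' hx'
      have e3 := hx i
      have e4 := hx' i
      intro heq
      rw [heq] at e3
      cases h : m'.testBit i <;> simp only [h] at e3 e4 <;> simp at e3 e4 <;> linarith
    · have e1 := h1 x hx
      have e2 := h2 x' hx'
      have e3 := hx i
      have e4 := hx' i
      intro heq
      rw [heq] at e3
      cases h : m'.testBit i <;> simp only [h] at e3 e4 <;> simp at e3 e4 <;> linarith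
  · intro hne
    cases h3 : m.testBit i <;> cases h4 : m'.testBit i
    · rw [h3, h4] at hne; exact absurd rfl hne
    · left
      refine ⟨fun y hy => ?_, fun y hy => ?_⟩
      · have := hy i; simpa [h3] using this
      · have := hy i; simpa [h4] using this
    · right
      refine ⟨fun y hy => ?_, fun y hy => ?_⟩
      · have := hy i; simpa [h3] using this
      · have := hy i; simpa [h4] using this
    · rw [h3, h4] at hne; exact absurd rfl hne

lemma Rz_finite (a : Fin n → Fin d → ℝ) (b : Fin n → ℝ) : (Rz a b).Finite :=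
  (finite_lt_nat (2 ^ n)).subset fun _ h => h.1

/-- the finite set of realised sign vectors -/
noncomputable def RF (a : Fin n → Fin d → ℝ) (b : Fin n → ℝ) : Finset ℕ := (Rz_finite a b).toFinset

lemma mem_RF {a : Fin n → Fin d → ℝ} {b : Fin n → ℝ} {m : ℕ} : m ∈ RF a b ↔ m ∈ Rz a b := by
  simp [RF]

/-- positive set -/
def ps (n m : ℕ) : Finset (Fin n) := Finset.univ.filter fun i => m.testBit i = true

lemma ps_injOn (a : Fin n → Fin d → ℝ) (b : Fin n → ℝ) :
    Set.InjOn (ps n) (RF a b : Set ℕ) := by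
  intro m hm m' hm' h
  rw [Finset.mem_coe, mem_RF] at hm hm'
  apply Nat.eq_of_testBit_eq
  intro i
  by_cases hi : i < n
  · have h1 : (⟨i, hi⟩ : Fin n) ∈ ps n m ↔ (⟨i, hi⟩ : Fin n) ∈ ps n m' := by rw [h]
    simp only [ps, Finset.mem_filter, Finset.mem_univ, true_and] at h1
    exact Bool.eq_iff_iff.mpr h1
  · have hle : 2 ^ n ≤ 2 ^ i := Nat.pow_le_pow_right (by norm_num) (by omega)
    rw [Nat.testBit_lt_two_pow (hm.1.trans_le hle), Nat.testBit_lt_two_pow (hm'.1.trans_le hle)]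

lemma not_shatters_aux (a : Fin n → Fin d → ℝ) (b : Fin n → ℝ) (s : Finset (Fin n))
    (hs : ((RF a b).image (ps n)).Shatters s) (g : s → ℝ) (hg : ∑ i, g i • a i = 0)
    (hne : ∃ i, g i ≠ 0) (hb : 0 ≤ ∑ i, g i * b i) : False := by
  classical
  let t : Finset (Fin n) := s.filter fun i => ∃ h : i ∈ s, 0 < g ⟨i, h⟩
  obtain ⟨u, hu, hut⟩ := hs (Finset.filter_subset (fun i => ∃ h : i ∈ s, 0 < g ⟨i, h⟩) s)
  rw [Finset.mem_image] at hu
  obtain ⟨m, hm, rfl⟩ := hu
  rw [mem_RF] at hm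
  obtain ⟨_, ⟨x, hx⟩⟩ := hm
  have key : ∀ i : s, 0 ≤ g i * (a i ⬝ᵥ x - b i) ∧ (g i ≠ 0 → 0 < g i * (a i ⬝ᵥ x - b i)) := by
    intro i
    have hiff : m.testBit (i : Fin n) = true ↔ 0 < g i := by
      have h1 : (i : Fin n) ∈ s ∩ ps n m ↔
          (i : Fin n) ∈ s.filter (fun i => ∃ h : i ∈ s, 0 < g ⟨i, h⟩) := by rw [hut]
      simp only [Finset.mem_inter, ps, Finset.mem_filter, Finset.mem_univ, true_and, i.2,
        exists_true_left] at h1
      exact h1
    have hxi := hx i
    by_cases hpos : 0 < g i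
    · have hb1 := hiff.mpr hpos
      simp only [hb1, if_true] at hxi
      have : 0 < g i * (a i ⬝ᵥ x - b i) := mul_pos hpos (by linarith)
      exact ⟨this.le, fun _ => this⟩
    · have hb1 : ¬ (m.testBit (i : Fin n) = true) := fun h => hpos (hiff.mp h)
      simp only [hb1] at hxi
      rcases lt_or_eq_of_le (not_lt.mp hpos) with h | h
      · have : 0 < g i * (a i ⬝ᵥ x - b i) :=
          mul_pos_of_neg_of_neg h (by simpa using hxi)
        exact ⟨this.le, fun _ => this⟩
      · rw [h]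
        exact ⟨by simp, fun h => absurd rfl h⟩
  obtain ⟨i0, hi0⟩ := hne
  have hsum : 0 < ∑ i, g i * (a i ⬝ᵥ x - b i) :=
    Finset.sum_pos' (fun i _ => (key i).1) ⟨i0, Finset.mem_univ _, (key i0).2 hi0⟩
  have hsum2 : ∑ i, g i * (a i ⬝ᵥ x - b i) = - ∑ i, g i * b i := by
    have h1 : ∑ i, g i * (a i ⬝ᵥ x) = 0 := by
      have h2 : (∑ i, g i • a i) ⬝ᵥ x = 0 := by rw [hg, zero_dotProduct]
      rw [sum_dotProduct] at h2
      simpa [smul_dotProduct] using h2
    simp only [mul_sub, Finset.sum_sub_distrib]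
    rw [h1, zero_sub]
  linarith

lemma not_shatters (a : Fin n → Fin d → ℝ) (b : Fin n → ℝ) (s : Finset (Fin n))
    (hs : ((RF a b).image (ps n)).Shatters s) : s.card ≤ d := by
  by_contra hcon
  have hdep : ¬ LinearIndependent ℝ (fun i : s => a i) := by
    intro hli
    have := hli.fintype_card_le_finrank
    rw [Fintype.card_coe, Module.finrank_fin_fun] at this
    exact hcon this
  rw [Fintype.not_linearIndependent_iff] at hdep
  obtain ⟨g, hg, hne⟩ := hdep
  rcases le_total 0 (∑ i, g i * b i) with h | h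
  · exact not_shatters_aux a b s hs g hg hne h
  · refine not_shatters_aux a b s hs (fun i => - g i) ?_ ?_ ?_
    · simp only [neg_smul, Finset.sum_neg_distrib, hg, neg_zero]
    · obtain ⟨i, hi⟩ := hne
      exact ⟨i, neg_ne_zero.mpr hi⟩
    · simp only [neg_mul, Finset.sum_neg_distrib]
      linarith

/-- The number of chambers is at most `∑_{k ≤ d} C(n,k)`. -/
theorem card_RF_le (a : Fin n → Fin d → ℝ) (b : Fin n → ℝ) :
    (RF a b).card ≤ ∑ k ∈ Finset.range (d + 1), n.choose k := by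
  classical
  rw [← Finset.card_image_of_injOn (ps_injOn a b)]
  refine (Finset.card_le_card_shatterer _).trans ?_
  refine (Finset.card_shatterer_le_sum_vcDim).trans ?_
  rw [Fintype.card_fin]
  apply Finset.sum_le_sum_of_subset
  intro k hk
  rw [Finset.mem_Iic] at hk
  rw [Finset.mem_range]
  have hvc : ((RF a b).image (ps n)).vcDim ≤ d := by
    unfold Finset.vcDim
    apply Finset.sup_le
    intro s hs
    rw [Finset.mem_shatterer] at hs
    exact not_shatters a b s hs
  omega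

end Pool.Agent.Q237.Arr
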