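import Mathlib

/-!
# Graphs that are not the union of a bipartite graph and a graph of small maximum degree

A hub joined to everything in two disjoint copies of a clique `A_i` joined to an independent
set `B_i` of size `n`, with `|A_1| + |A_2| = n`, cannot be split.
-/

namespace Pool.Agent.Q237.SplitCore

open Finset

/-- `n`-splittable: `E(G) = E(B) ∪ E(D)` with `B` bipartite and every vertex of `D` of degree
less than `n`. -/
def Splittable {V : Type*} (n : ℕ) (G : SimpleGraph V) : Prop :=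
  ∃ B D : SimpleGraph V, G.edgeSet = B.edgeSet ∪ D.edgeSet ∧ B.Colorable 2 ∧
    ∀ v, (D.neighborSet v).ncard < n

/-- one copy: at least `|A|` of its vertices lie on the side of the hub -/
lemma copy_bound {V : Type*} [Fintype V] [DecidableEq V] {n : ℕ} (S : Finset V) (A B : Finset V)
    (hAB : Disjoint A B) (hB : #B = n)
    (key : ∀ v ∈ A, v ∉ S → #(((A ∪ B).erase v) \ S) < n) : #A ≤ #((A ∪ B) ∩ S) := by
  by_cases hA : A ⊆ S
  · exact card_le_card (subset_inter subset_union_left hA)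
  · obtain ⟨v, hvA, hvS⟩ := not_subset.mp hA
    have h1 := key v hvA hvS
    have h2 : ((A ∪ B).erase v) \ S = ((A ∪ B) \ S).erase v := by
      ext x; simp only [mem_sdiff, mem_erase]; tauto
    have h3 : v ∈ (A ∪ B) \ S := mem_sdiff.mpr ⟨mem_union_left _ hvA, hvS⟩
    rw [h2, card_erase_of_mem h3] at h1
    have h4 : #((A ∪ B) ∩ S) + #((A ∪ B) \ S) = #(A ∪ B) := card_inter_add_card_sdiff _ _
    have h5 : #(A ∪ B) = #A + n := by rw [card_union_of_disjoint hAB, hB]
    have h6 : 0 < #((A ∪ B) \ S) := card_pos.mpr ⟨v, h3⟩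
    omega

theorem core {V : Type*} [Fintype V] [DecidableEq V] {n : ℕ} (G : SimpleGraph V) (h : V)
    (A₁ B₁ A₂ B₂ : Finset V) (d1 : Disjoint A₁ B₁) (d2 : Disjoint A₂ B₂)
    (d3 : Disjoint (A₁ ∪ B₁) (A₂ ∪ B₂))
    (hh1 : ∀ x ∈ A₁ ∪ B₁, G.Adj h x) (hh2 : ∀ x ∈ A₂ ∪ B₂, G.Adj h x)
    (ha1 : ∀ v ∈ A₁, ∀ x ∈ A₁ ∪ B₁, x ≠ v → G.Adj v x)
    (ha2 : ∀ v ∈ A₂, ∀ x ∈ A₂ ∪ B₂, x ≠ v → G.Adj v x)
    (hB1 : #B₁ = n) (hB2 : #B₂ = n) (hA : n ≤ #A₁ + #A₂) : ¬ Splittable n G := by
  classical
  rintro ⟨B, D, hE, ⟨c⟩, hD⟩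
  have hadj : ∀ v w, G.Adj v w → c v = c w → D.Adj v w := by
    intro v w hvw hc
    have h1 : s(v, w) ∈ G.edgeSet := hvw
    rw [hE] at h1
    rcases h1 with h1 | h1
    · exact absurd hc (c.valid h1)
    · exact h1
  have hdeg : ∀ (v : V) (T : Finset V), (∀ w ∈ T, G.Adj v w ∧ c v = c w) → #T < n := by
    intro v T hT
    refine lt_of_le_of_lt ?_ (hD v)
    rw [← Set.ncard_coe_finset]
    exact Set.ncard_le_ncard (fun w hw => hadj v w (hT w hw).1 (hT w hw).2) (Set.toFinite _)
  set S : Finset V := univ.filter (fun v => c v = c h) with hS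
  have hcol : ∀ v w, v ∉ S → w ∉ S → c v = c w := by
    intro v w hv hw
    simp only [hS, mem_filter, mem_univ, true_and] at hv hw
    have : ∀ x y z : Fin 2, x ≠ z → y ≠ z → x = y := by decide
    exact this _ _ _ hv hw
  have c1 : #A₁ ≤ #((A₁ ∪ B₁) ∩ S) := by
    apply copy_bound S A₁ B₁ d1 hB1
    intro v hv hvS
    apply hdeg v
    intro w hw
    rw [mem_sdiff, mem_erase] at hw
    exact ⟨ha1 v hv w hw.1.2 hw.1.1, hcol v w hvS hw.2⟩
  have c2 : #A₂ ≤ #((A₂ ∪ B₂) ∩ S) := by
    apply copy_bound S A₂ B₂ d2 hB2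
    intro v hv hvS
    apply hdeg v
    intro w hw
    rw [mem_sdiff, mem_erase] at hw
    exact ⟨ha2 v hv w hw.1.2 hw.1.1, hcol v w hvS hw.2⟩
  have c3 : #(((A₁ ∪ B₁) ∩ S) ∪ ((A₂ ∪ B₂) ∩ S)) < n := by
    apply hdeg h
    intro w hw
    rw [mem_union, mem_inter, mem_inter] at hw
    rcases hw with hw | hw
    · refine ⟨hh1 w hw.1, ?_⟩
      have := hw.2
      simp only [hS, mem_filter, mem_univ, true_and] at this
      exact this.symm
    · refine ⟨hh2 w hw.1, ?_⟩
      have := hw.2
      simp only [hS, mem_filter, mem_univ, true_and] at this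
      exact this.symm
  rw [card_union_of_disjoint (Disjoint.mono inter_subset_left inter_subset_left d3)] at c3
  omega

/-- existence: for every `n ≥ 1`, every finite vertex set with at least `3n+1` vertices and every
number `t` of edges between `3n + n² + C(⌈n/2⌉,2) + C(⌊n/2⌋,2)` and `C(|V|,2)`, some graph with
exactly `t` edges is not `n`-splittable. -/
theorem exists_not_splittable {V : Type*} [Fintype V] [DecidableEq V] (n t : ℕ)
    (hV : 3 * n + 1 ≤ Fintype.card V)
    (ht : 3 * n + n * n + ((n + 1) / 2).choose 2 + (n / 2).choose 2 ≤ t)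
    (ht' : t ≤ (Fintype.card V).choose 2) :
    ∃ G : SimpleGraph V, G.edgeSet.ncard = t ∧ ¬ Splittable n G := by
  classical
  set a := (n + 1) / 2 with ha
  set b := n / 2 with hb
  have hab : a + b = n := by omega
  have hcard : Fintype.card (Option ((Fin a ⊕ Fin n) ⊕ (Fin b ⊕ Fin n))) ≤ Fintype.card V := by
    simp only [Fintype.card_option, Fintype.card_sum, Fintype.card_fin]
    omega
  obtain ⟨f⟩ := Function.Embedding.nonempty_of_card_le hcard
  set h : V := f none with hh
  set A₁ : Finset V := univ.image (fun i : Fin a => f (some (.inl (.inl i)))) with hA₁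
  set B₁ : Finset V := univ.image (fun i : Fin n => f (some (.inl (.inr i)))) with hB₁
  set A₂ : Finset V := univ.image (fun i : Fin b => f (some (.inr (.inl i)))) with hA₂
  set B₂ : Finset V := univ.image (fun i : Fin n => f (some (.inr (.inr i)))) with hB₂
  have cA₁ : #A₁ = a := by
    rw [hA₁, card_image_of_injective _ (fun i j hij => by simpa using hij), card_univ,
      Fintype.card_fin]
  have cB₁ : #B₁ = n := by
    rw [hB₁, card_image_of_injective _ (fun i j hij => by simpa using hij), card_univ,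
      Fintype.card_fin]
  have cA₂ : #A₂ = b := by
    rw [hA₂, card_image_of_injective _ (fun i j hij => by simpa using hij), card_univ,
      Fintype.card_fin]
  have cB₂ : #B₂ = n := by
    rw [hB₂, card_image_of_injective _ (fun i j hij => by simpa using hij), card_univ,
      Fintype.card_fin]
  have dd1 : Disjoint A₁ B₁ := by
    rw [disjoint_left]; intro x hx hx'
    simp only [hA₁, hB₁, mem_image, mem_univ, true_and] at hx hx'
    obtain ⟨i, rfl⟩ := hx; obtain ⟨j, hj⟩ := hx'; simp at hj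
  have dd2 : Disjoint A₂ B₂ := by
    rw [disjoint_left]; intro x hx hx'
    simp only [hA₂, hB₂, mem_image, mem_univ, true_and] at hx hx'
    obtain ⟨i, rfl⟩ := hx; obtain ⟨j, hj⟩ := hx'; simp at hj
  have dd3 : Disjoint (A₁ ∪ B₁) (A₂ ∪ B₂) := by
    rw [disjoint_left]; intro x hx hx'
    simp only [hA₁, hB₁, hA₂, hB₂, mem_union, mem_image, mem_univ, true_and] at hx hx'
    rcases hx with ⟨i, rfl⟩ | ⟨i, rfl⟩ <;> rcases hx' with ⟨j, hj⟩ | ⟨j, hj⟩ <;> simp at hj
  have hn1 : h ∉ A₁ ∪ B₁ := by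
    intro hx
    simp only [hh, hA₁, hB₁, mem_union, mem_image, mem_univ, true_and] at hx
    rcases hx with ⟨j, hj⟩ | ⟨j, hj⟩ <;> simp at hj
  have hn2 : h ∉ A₂ ∪ B₂ := by
    intro hx
    simp only [hh, hA₂, hB₂, mem_union, mem_image, mem_univ, true_and] at hx
    rcases hx with ⟨j, hj⟩ | ⟨j, hj⟩ <;> simp at hj
  -- the edges of the basic graph
  set W : Finset V := (A₁ ∪ B₁) ∪ (A₂ ∪ B₂) with hW
  set E₀ : Finset (Sym2 V) :=
    (W.image (fun x => s(h, x)) ∪
      (A₁.offDiag.image (Function.uncurry Sym2.mk) ∪ (A₁ ×ˢ B₁).image (Function.uncurry Sym2.mk))) ∪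
      (A₂.offDiag.image (Function.uncurry Sym2.mk) ∪ (A₂ ×ˢ B₂).image (Function.uncurry Sym2.mk)) with hE₀
  have cE₀ : #E₀ ≤ t := by
    have e1 : #(W.image (fun x => s(h, x))) ≤ 3 * n := by
      refine card_image_le.trans ?_
      rw [hW]
      refine (card_union_le _ _).trans ?_
      have := card_union_le A₁ B₁
      have := card_union_le A₂ B₂
      omega
    have e2 : #(A₁.offDiag.image (Function.uncurry Sym2.mk)) = a.choose 2 := by
      rw [Sym2.card_image_offDiag, cA₁]
    have e3 : #(A₂.offDiag.image (Function.uncurry Sym2.mk)) = b.choose 2 := by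
      rw [Sym2.card_image_offDiag, cA₂]
    have e4 : #((A₁ ×ˢ B₁).image (Function.uncurry Sym2.mk)) ≤ a * n := by
      refine card_image_le.trans ?_
      rw [card_product, cA₁, cB₁]
    have e5 : #((A₂ ×ˢ B₂).image (Function.uncurry Sym2.mk)) ≤ b * n := by
      refine card_image_le.trans ?_
      rw [card_product, cA₂, cB₂]
    have e6 := card_union_le (W.image (fun x => s(h, x)))
      (A₁.offDiag.image (Function.uncurry Sym2.mk) ∪ (A₁ ×ˢ B₁).image (Function.uncurry Sym2.mk))
    have e7 := card_union_le (A₁.offDiag.image (Function.uncurry Sym2.mk)) ((A₁ ×ˢ B₁).image (Function.uncurry Sym2.mk))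
    have e8 := card_union_le (A₂.offDiag.image (Function.uncurry Sym2.mk)) ((A₂ ×ˢ B₂).image (Function.uncurry Sym2.mk))
    have e9 := card_union_le (W.image (fun x => s(h, x)) ∪
      (A₁.offDiag.image (Function.uncurry Sym2.mk) ∪ (A₁ ×ˢ B₁).image (Function.uncurry Sym2.mk)))
      (A₂.offDiag.image (Function.uncurry Sym2.mk) ∪ (A₂ ×ˢ B₂).image (Function.uncurry Sym2.mk))
    have e10 : a * n + b * n = n * n := by rw [← add_mul, hab]
    rw [← hE₀] at e9
    omega
  set U : Finset (Sym2 V) := univ.filter (fun e => ¬ e.IsDiag) with hU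
  have cU : #U = (Fintype.card V).choose 2 := by
    rw [hU, ← Sym2.card_subtype_not_diag, Fintype.card_subtype]
  have hE₀U : E₀ ⊆ U := by
    intro e he
    rw [hU, mem_filter]
    refine ⟨mem_univ _, ?_⟩
    simp only [hE₀, mem_union, mem_image, mem_offDiag, mem_product, Prod.exists] at he
    rcases he with (⟨x, hx, rfl⟩ | ⟨x, y, ⟨_, _, hxy⟩, rfl⟩ | ⟨x, y, ⟨hx, hy⟩, rfl⟩) |
      ⟨x, y, ⟨_, _, hxy⟩, rfl⟩ | ⟨x, y, ⟨hx, hy⟩, rfl⟩
    · rw [Sym2.mk_isDiag_iff]; rintro rfl
      rw [hW, mem_union] at hx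
      exact hx.elim hn1 hn2
    · change ¬ (s(x, y)).IsDiag; rw [Sym2.mk_isDiag_iff]; exact hxy
    · change ¬ (s(x, y)).IsDiag; rw [Sym2.mk_isDiag_iff]; rintro rfl; exact disjoint_left.mp dd1 hx hy
    · change ¬ (s(x, y)).IsDiag; rw [Sym2.mk_isDiag_iff]; exact hxy
    · change ¬ (s(x, y)).IsDiag; rw [Sym2.mk_isDiag_iff]; rintro rfl; exact disjoint_left.mp dd2 hx hy
  obtain ⟨E₁, h01, h1U, cE₁⟩ := exists_subsuperset_card_eq hE₀U cE₀ (by rw [cU]; exact ht')
  refine ⟨SimpleGraph.fromEdgeSet (E₁ : Set (Sym2 V)), ?_, ?_⟩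
  · rw [SimpleGraph.edgeSet_fromEdgeSet]
    have : (E₁ : Set (Sym2 V)) \ Sym2.diagSet = (E₁ : Set (Sym2 V)) := by
      ext e
      simp only [Set.mem_sdiff, mem_coe]
      constructor
      · exact fun he => he.1
      · intro he
        have := h1U he
        rw [hU, mem_filter] at this
        exact ⟨he, this.2⟩
    rw [this, Set.ncard_coe_finset, cE₁]
  · have hmem : ∀ x y : V, x ≠ y → s(x, y) ∈ E₀ →
        (SimpleGraph.fromEdgeSet (E₁ : Set (Sym2 V))).Adj x y := by
      intro x y hxy hmem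
      rw [SimpleGraph.fromEdgeSet_adj]
      exact ⟨mem_coe.mpr (h01 hmem), hxy⟩
    apply core (SimpleGraph.fromEdgeSet (E₁ : Set (Sym2 V))) h A₁ B₁ A₂ B₂ dd1 dd2 dd3
    · intro x hx
      apply hmem
      · rintro rfl; exact hn1 hx
      · rw [hE₀]; apply mem_union_left; apply mem_union_left
        exact mem_image_of_mem _ (by rw [hW]; exact mem_union_left _ hx)
    · intro x hx
      apply hmem
      · rintro rfl; exact hn2 hx
      · rw [hE₀]; apply mem_union_left; apply mem_union_left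
        exact mem_image_of_mem _ (by rw [hW]; exact mem_union_right _ hx)
    · intro v hv x hx hxv
      apply hmem _ _ hxv.symm
      rw [hE₀]; apply mem_union_left; apply mem_union_right
      rcases mem_union.mp hx with hx | hx
      · apply mem_union_left
        exact mem_image.mpr ⟨(v, x), mem_offDiag.mpr ⟨hv, hx, hxv.symm⟩, rfl⟩
      · apply mem_union_right
        exact mem_image.mpr ⟨(v, x), mem_product.mpr ⟨hv, hx⟩, rfl⟩
    · intro v hv x hx hxv
      apply hmem _ _ hxv.symm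
      rw [hE₀]; apply mem_union_right
      rcases mem_union.mp hx with hx | hx
      · apply mem_union_left
        exact mem_image.mpr ⟨(v, x), mem_offDiag.mpr ⟨hv, hx, hxv.symm⟩, rfl⟩
      · apply mem_union_right
        exact mem_image.mpr ⟨(v, x), mem_product.mpr ⟨hv, hx⟩, rfl⟩
    · exact cB₁
    · exact cB₂
    · omega

lemma two_mul_choose (x : ℕ) : 2 * (x + 1).choose 2 = (x + 1) * x := by
  rw [Nat.choose_two_right, Nat.add_sub_cancel]
  apply Nat.mul_div_cancel'
  rw [mul_comm]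
  exact (Nat.even_mul_succ_self x).two_dvd

/-- the edge count of the construction is at most `C(2n+1,2) - C(n,2) - 1` when `n ≥ 5` -/
lemma count_le (n : ℕ) (hn : 5 ≤ n) :
    3 * n + n * n + ((n + 1) / 2).choose 2 + (n / 2).choose 2 ≤
      (2 * n + 1).choose 2 - n.choose 2 - 1 := by
  rcases Nat.even_or_odd' n with ⟨k, hk | hk⟩
  · obtain ⟨j, rfl⟩ : ∃ j, k = j + 3 := ⟨k - 3, by omega⟩
    have h1 : (n + 1) / 2 = j + 2 + 1 := by omega
    have h2 : n / 2 = j + 2 + 1 := by omega
    have h3 := two_mul_choose (2 * n)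
    have h4 := two_mul_choose (2 * j + 5)
    have h5 := two_mul_choose (j + 2)
    have h6 : n = 2 * j + 5 + 1 := by omega
    rw [← h6] at h4
    rw [h1, h2]
    have h7 : 3 * n + n * n + (j + 2 + 1).choose 2 + (j + 2 + 1).choose 2 + n.choose 2 + 1 ≤
        (2 * n + 1).choose 2 := by
      rw [h6] at h3 h4 ⊢
      nlinarith
    omega
  · obtain ⟨j, rfl⟩ : ∃ j, k = j + 2 := ⟨k - 2, by omega⟩
    have h1 : (n + 1) / 2 = j + 2 + 1 := by omega
    have h2 : n / 2 = j + 1 + 1 := by omega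
    have h3 := two_mul_choose (2 * n)
    have h4 := two_mul_choose (2 * j + 4)
    have h5 := two_mul_choose (j + 2)
    have h5' := two_mul_choose (j + 1)
    have h6 : n = 2 * j + 4 + 1 := by omega
    rw [← h6] at h4
    rw [h1, h2]
    have h7 : 3 * n + n * n + (j + 2 + 1).choose 2 + (j + 1 + 1).choose 2 + n.choose 2 + 1 ≤
        (2 * n + 1).choose 2 := by
      rw [h6] at h3 h4 ⊢
      nlinarith
    omega

/-- for `n ≥ 5` and `m ≥ 3n+1` some graph with `m` vertices and exactly
`C(2n+1,2) - C(n,2) - 1` edges is not `n`-splittable -/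
theorem counterexamples (n m : ℕ) (hn : 5 ≤ n) (hm : 3 * n + 1 ≤ m) :
    ∃ G : SimpleGraph (Fin m),
      G.edgeSet.ncard = (2 * n + 1).choose 2 - n.choose 2 - 1 ∧ ¬ Splittable n G := by
  apply exists_not_splittable n _ (by simpa using hm) (count_le n hn)
  rw [Fintype.card_fin]
  have : (2 * n + 1).choose 2 ≤ m.choose 2 := Nat.choose_le_choose 2 (by omega)
  omega

end Pool.Agent.Q237.SplitCore
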