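import Mathlib

set_option autoImplicit false

namespace Pool.Agent.Q237.SubcubeArith

lemma arith0 : ∀ i : Fin 19, 3 ≤ i.val → ∀ c : Fin 4, ∀ g : Fin 16, ∃ l : Fin 5,
    c.val + 4 * l.val ≤ i.val ∧ ∃ v : Fin 22, v.val + i.val ≤ 21 ∧
      (v.val + 4 * l.val) % 16 = g.val := by
  decide +kernel

lemma arith (i : ℕ) (hi : i < 19) (hi3 : 3 ≤ i) (c : ℕ) (hc : c < 4) (g : ℕ) (hg : g < 16) :
    ∃ l < 5, c + 4 * l ≤ i ∧ ∃ v < 22, v + i ≤ 21 ∧ (v + 4 * l) % 16 = g := by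
  obtain ⟨l, h1, v, h2, h3⟩ := arith0 ⟨i, hi⟩ hi3 ⟨c, hc⟩ ⟨g, hg⟩
  exact ⟨l.val, l.isLt, h1, v.val, v.isLt, h2, h3⟩

end Pool.Agent.Q237.SubcubeArith
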